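import Mathlib

/-!
# The products of the curves of pencils of hyperelliptic curves: definitions

The parameters are `t_i`, `i ∈ σ`, and `w`; the curves are `C_i : Y² = c_i(t; X) + w b_i(t; X)`, `i < m`, where `b_i` and
`c_i` are polynomials with integer coefficients.
-/

set_option autoImplicit false

namespace Pool.Agent.L0h50.AB

open Polynomial

/-- The field `K = ℚ(t)(w)` of the rational functions in the parameters. -/
abbrev BaseField (σ : Type) : Type := RatFunc (FractionRing (MvPolynomial σ ℤ))

/-- The inclusion of the ring of the polynomials in `t`. -/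
noncomputable def const (σ : Type) : MvPolynomial σ ℤ →+* BaseField σ :=
  (algebraMap (FractionRing (MvPolynomial σ ℤ)) (BaseField σ)).comp
    (algebraMap (MvPolynomial σ ℤ) (FractionRing (MvPolynomial σ ℤ)))

/-- The polynomial `F = c(t; X) + w b(t; X)` over `K`: the generic curve of the pencil is `Y² = F(X)`. -/
noncomputable def generic {σ : Type} (b c : (MvPolynomial σ ℤ)[X]) : (BaseField σ)[X] :=
  c.map (const σ) + C RatFunc.X * b.map (const σ)

/-- The polynomial `c(t; X) + w b(t; X)` at the integral point `t_i = x (some i)`, `w = x none`. -/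
noncomputable def member {σ : Type} (b c : (MvPolynomial σ ℤ)[X]) (x : Option σ → ℤ) : ℤ[X] :=
  c.map (MvPolynomial.eval fun i => x (some i)) + C (x none) * b.map (MvPolynomial.eval fun i => x (some i))

/-- The rank of the class group of the ring `K[X, Y] / (Y² - F(X))`, which is the Jacobian of the curve
`Y² = F(X)` if `F` is separable and of odd degree, is `n`. -/
def ClassGroupHasRank {K : Type} [Field K] (F : K[X]) (n : ℕ) : Prop :=
  ∃ _ : IsDomain (AdjoinRoot (X ^ 2 - C F : K[X][X])),
    Module.rank ℤ (Additive (ClassGroup (AdjoinRoot (X ^ 2 - C F : K[X][X])))) = n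

/-- `K₁ = K(x, y)` is the function field of the curve `y² = F(x)`. -/
def IsFunctionField {K K₁ : Type} [Field K] [Field K₁] [Algebra K K₁] (F : K[X]) (x y : K₁) : Prop :=
  Transcendental K x ∧ y ^ 2 = aeval x F ∧ IntermediateField.adjoin K {x, y} = ⊤

/-- The number of the points of the affine curve `Y² = G(X)` over the field with `p ^ e` elements, `e ≥ 1`. -/
noncomputable def points (G : ℤ[X]) (p e : ℕ) [Fact p.Prime] : ℕ :=
  Nat.card {P : GaloisField p e × GaloisField p e // P.2 ^ 2 = aeval P.1 G}

/-- The trace of the `e`-th power of the Frobenius at `p` on `H¹` of the curve `Y² = G(X)` with one point at infinity. -/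
noncomputable def traceOne (G : ℤ[X]) (p e : ℕ) [Fact p.Prime] : ℤ := (p : ℤ) ^ e - points G p e

/-- The trace of the `e`-th power of the Frobenius at `p` on `H²` of the product of the curves `Y² = G_i(X)`, `i < m`
(Künneth). -/
noncomputable def traceTwo {m : ℕ} (G : Fin m → ℤ[X]) (p e : ℕ) [Fact p.Prime] : ℤ :=
  m * (p : ℤ) ^ e + ∑ i, ∑ j, if i < j then traceOne (G i) p e * traceOne (G j) p e else 0

/-- `γ p j`, `j < B`, are the eigenvalues of the Frobenius at `p` on `H²` of the product of the curves of the pencils at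
the integral point `x`, zeros added if necessary: they are of absolute value at most `p` for all primes `p`, and
the power sums are the traces if `p ≥ p₀` does not divide `P(x)`. -/
structure IsMember {σ : Type} {m : ℕ} (b c : Fin m → (MvPolynomial σ ℤ)[X]) (P : MvPolynomial (Option σ) ℤ) (p₀ : ℕ)
    (x : Option σ → ℤ) {B : ℕ} (γ : ℕ → Fin B → ℂ) : Prop where
  bound : ∀ p : ℕ, p.Prime → ∀ j, ‖γ p j‖ ≤ (p : ℝ)
  power : ∀ (p : ℕ) [Fact p.Prime], p₀ ≤ p → ¬ (p : ℤ) ∣ MvPolynomial.eval x P → ∀ e : ℕ, 1 ≤ e →
    ∑ j, γ p j ^ e = traceTwo (fun i => member (b i) (c i) x) p e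

end Pool.Agent.L0h50.AB
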