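import Mathlib
import Pool.Agent.R410.LW.Fg

/-!
# The field of rational functions in several variables over the rational numbers
-/

set_option autoImplicit false

namespace Pool.Agent.L0h50.AB

open Pool.Agent.R410.LW (FG)

section
variable (σ : Type) [Fintype σ]

/-- the field -/
abbrev MM : Type := FractionRing (MvPolynomial σ ℤ)

instance : CharZero (MM σ) := by
  have h1 : Function.Injective (algebraMap ℤ (MvPolynomial σ ℤ)) := by
    rw [MvPolynomial.algebraMap_eq]
    exact MvPolynomial.C_injective σ ℤ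
  have h2 : Function.Injective (algebraMap (MvPolynomial σ ℤ) (MM σ)) :=
    IsFractionRing.injective _ _
  have h3 : Function.Injective ((algebraMap (MvPolynomial σ ℤ) (MM σ)).comp (algebraMap ℤ (MvPolynomial σ ℤ))) :=
    h2.comp h1
  refine ⟨fun a b hab => ?_⟩
  have h4 : ((algebraMap (MvPolynomial σ ℤ) (MM σ)).comp (algebraMap ℤ (MvPolynomial σ ℤ))) (a : ℤ) =
      ((algebraMap (MvPolynomial σ ℤ) (MM σ)).comp (algebraMap ℤ (MvPolynomial σ ℤ))) (b : ℤ) := by
    rw [map_natCast, map_natCast]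
    exact hab
  exact_mod_cast h3 h4

theorem trdeg_MM : Algebra.trdeg ℚ (MM σ) = (Fintype.card σ : ℕ) := by
  have : @IsScalarTower ℤ ℚ (MM σ) Algebra.toSMul Algebra.toSMul Algebra.toSMul :=
    IsScalarTower.of_algebraMap_eq' (RingHom.ext_int _ _)
  have e1 := trdeg_add_eq ℤ (MvPolynomial σ ℤ) (A := MM σ)
  have e2 := trdeg_add_eq ℤ ℚ (A := MM σ)
  have a1 : Algebra.IsAlgebraic (MvPolynomial σ ℤ) (MM σ) :=
    (IsLocalization.isAlgebraic (R := MvPolynomial σ ℤ) (S := MM σ) (nonZeroDivisors _))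
  have a2 : Algebra.IsAlgebraic ℤ ℚ := IsLocalization.isAlgebraic (R := ℤ) (S := ℚ) (nonZeroDivisors _)
  rw [trdeg_eq_zero (R := MvPolynomial σ ℤ) (A := MM σ), add_zero, MvPolynomial.trdeg_of_isDomain] at e1
  rw [trdeg_eq_zero (R := ℤ) (A := ℚ), zero_add, ← e1] at e2
  rw [e2]
  simp

theorem fg_MM : FG (MM σ) := by
  classical
  refine ⟨Finset.univ.image fun i : σ => algebraMap (MvPolynomial σ ℤ) (MM σ) (MvPolynomial.X i), ?_⟩
  set Cf := Subfield.closure ((Finset.univ.image fun i : σ =>
    algebraMap (MvPolynomial σ ℤ) (MM σ) (MvPolynomial.X i) : Finset (MM σ)) : Set (MM σ)) with hCf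
  have hX : ∀ i, algebraMap (MvPolynomial σ ℤ) (MM σ) (MvPolynomial.X i) ∈ Cf := fun i =>
    Subfield.subset_closure (by
      rw [Finset.mem_coe]
      exact Finset.mem_image_of_mem _ (Finset.mem_univ i))
  have hP : ∀ p : MvPolynomial σ ℤ, algebraMap (MvPolynomial σ ℤ) (MM σ) p ∈ Cf := by
    intro p
    induction p using MvPolynomial.induction_on with
    | C a =>
      have : (MvPolynomial.C a : MvPolynomial σ ℤ) = (a : MvPolynomial σ ℤ) := by simp
      rw [this, map_intCast]
      exact intCast_mem Cf a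
    | add p q hp hq =>
      rw [map_add]
      exact add_mem hp hq
    | mul_X p i hp =>
      rw [map_mul]
      exact mul_mem hp (hX i)
  rw [eq_top_iff]
  intro z _
  obtain ⟨x, y, -, rfl⟩ := IsFractionRing.div_surjective (A := MvPolynomial σ ℤ) z
  exact div_mem (hP x) (hP y)

end

end Pool.Agent.L0h50.AB
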