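import Mathlib
import Pool.Agent.Y707.RX.Zet
import Pool.Agent.Y707.RX.Cmp

/-!
# The sum over the primes of degree one near the line `Re s = 1`
-/

set_option autoImplicit false

namespace Pool.Agent.L0h50.AB

open NumberField Filter Topology
open Pool.Agent.Y707.RX
open H332.PIT

section
variable (L : Type) [Field L] [NumberField L]

/-- **The sum over the primes of degree one near a point of the line.** -/
theorem PS_log_at (t : ℝ) : ∃ B : ℂ → ℂ, AnalyticAt ℂ B (1 + t * Complex.I) ∧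
    ∀ᶠ w in 𝓝 (1 + t * Complex.I), 1 < w.re → PS L w = -Complex.log (w - 1) + B w := by
  obtain ⟨g, hg, hgz⟩ := Pool.Agent.H484R2.continuation L t
  have hne := cont_ne_zero (K := L) (Pool.Agent.H484R2.continuation L) t hg hgz
  have hlog := logderiv_cont hgz
  set c₀ : ℂ := 1 + t * Complex.I with hc₀
  have hre0 : c₀.re = 1 := by simp [hc₀]
  -- the analytic part of the derivative
  set a : ℂ → ℂ := fun z => deriv g z / g z + LSeries (en L) z with ha
  have han : AnalyticAt ℂ a c₀ := by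
    refine (hg.deriv.div hg hne).add ?_
    refine LSeries_analyticOnNhd (en L) c₀ ?_
    exact half_lt (by rw [hre0]; norm_num)
  obtain ⟨r, hr, hball⟩ := Metric.eventually_nhds_iff_ball.1 (han.eventually_analyticAt.and hlog)
  have hd : DifferentiableOn ℂ a (Metric.ball c₀ r) := fun z hz =>
    (hball z hz).1.differentiableAt.differentiableWithinAt
  obtain ⟨A, hA⟩ := hd.isExactOn_ball
  -- the convex region
  set U : Set ℂ := Metric.ball c₀ r ∩ {z : ℂ | 1 < z.re} with hU
  have hUo : IsOpen U := Metric.isOpen_ball.inter isOpen_re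
  have hUc : IsPreconnected U :=
    ((convex_ball c₀ r).inter (convex_halfSpace_re_gt 1)).isPreconnected
  have hslit : ∀ z ∈ U, z - 1 ∈ Complex.slitPlane := by
    intro z hz
    refine Complex.mem_slitPlane_iff.2 (Or.inl ?_)
    have : (1 : ℝ) < z.re := hz.2
    simp only [Complex.sub_re, Complex.one_re]
    linarith
  have hder : ∀ z ∈ U, HasDerivAt (fun z => PS L z + Complex.log (z - 1) - A z) 0 z := by
    intro z hz
    have h1 := PS_deriv (L := L) hz.2
    have h2 : HasDerivAt (fun z => Complex.log (z - 1)) (1 / (z - 1)) z :=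
      ((hasDerivAt_id z).sub_const 1).clog (hslit z hz)
    refine ((h1.add h2).sub (hA z hz.1)).congr_deriv ?_
    have h3 := (hball z hz.1).2 hz.2
    rw [ha]
    simp only
    rw [h3]
    ring
  have hmem : (c₀ + ((r / 2 : ℝ) : ℂ)) ∈ U := by
    constructor
    · rw [Metric.mem_ball, dist_eq_norm, add_sub_cancel_left, Complex.norm_real,
        Real.norm_of_nonneg (by positivity)]
      linarith
    · simp only [Set.mem_ofPred_eq, Complex.add_re, Complex.ofReal_re, hre0]
      linarith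
  have hconst : ∀ z ∈ U, PS L z + Complex.log (z - 1) - A z =
      (fun z => PS L z + Complex.log (z - 1) - A z) (c₀ + ((r / 2 : ℝ) : ℂ)) := by
    intro z hz
    refine hUo.is_const_of_deriv_eq_zero hUc
      (fun w hw => (hder w hw).differentiableAt.differentiableWithinAt)
      (fun w hw => (hder w hw).deriv) hz hmem
  refine ⟨fun z => A z + (fun z => PS L z + Complex.log (z - 1) - A z) (c₀ + ((r / 2 : ℝ) : ℂ)),
    ?_, ?_⟩
  · refine AnalyticAt.add ?_ analyticAt_const
    have h1 : DifferentiableOn ℂ A (Metric.ball c₀ r) := fun z hz =>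
      (hA z hz).differentiableAt.differentiableWithinAt
    exact h1.analyticAt (Metric.isOpen_ball.mem_nhds (Metric.mem_ball_self hr))
  · filter_upwards [Metric.ball_mem_nhds c₀ hr] with z hz hz1
    have h9 := hconst z ⟨hz, hz1⟩
    simp only at h9 ⊢
    rw [← h9]
    ring

/-- The sum over the primes of degree one and the logarithm, in a rectangle. -/
theorem PS_edge (T : ℝ) : ∃ C : ℝ, 0 ≤ C ∧ ∀ ε τ : ℝ, 0 < ε → ε ≤ 1 → |τ| ≤ T →
    |(PS L (1 + ε + τ * Complex.I)).re - Real.log (1 / ‖(ε : ℂ) + τ * Complex.I‖)| ≤ C := by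
  have hkey : ∃ C ρ : ℝ, 0 ≤ C ∧ 0 < ρ ∧ ∀ τ ∈ Set.Icc (-T) T, ∀ ε : ℝ, 0 < ε → ε < ρ →
      |(PS L (1 + ε + τ * Complex.I)).re - Real.log (1 / ‖(ε : ℂ) + τ * Complex.I‖)| ≤ C := by
    refine (isCompact_Icc (a := -T) (b := T)).induction_on
      (p := fun s => ∃ C ρ : ℝ, 0 ≤ C ∧ 0 < ρ ∧ ∀ τ ∈ s, ∀ ε : ℝ, 0 < ε → ε < ρ →
      |(PS L (1 + ε + τ * Complex.I)).re - Real.log (1 / ‖(ε : ℂ) + τ * Complex.I‖)| ≤ C) ?_ ?_ ?_ ?_
    · exact ⟨0, 1, le_rfl, one_pos, fun τ h => absurd h (Set.notMem_empty τ)⟩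
    · rintro s s' hss ⟨C, ρ, hC, hρ, h⟩
      exact ⟨C, ρ, hC, hρ, fun τ hτ => h τ (hss hτ)⟩
    · rintro s s' ⟨C, ρ, hC, hρ, h⟩ ⟨C', ρ', hC', hρ', h'⟩
      refine ⟨C + C', min ρ ρ', by positivity, lt_min hρ hρ', fun τ hτ ε hε hερ => ?_⟩
      rcases hτ with hτ | hτ
      · have := h τ hτ ε hε (lt_of_lt_of_le hερ (min_le_left _ _))
        linarith
      · have := h' τ hτ ε hε (lt_of_lt_of_le hερ (min_le_right _ _))
        linarith
    · intro t _
      obtain ⟨B, hB, hPS⟩ := PS_log_at L t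
      set c₀ : ℂ := 1 + t * Complex.I with hc₀
      have h1 : ∀ᶠ w in 𝓝 c₀, ‖B w‖ < ‖B c₀‖ + 1 :=
        (hB.continuousAt.norm).eventually (gt_mem_nhds (by linarith))
      obtain ⟨r, hr, hball⟩ := Metric.eventually_nhds_iff_ball.1 (hPS.and h1)
      refine ⟨Metric.ball t (r / 2), mem_nhdsWithin_of_mem_nhds (Metric.ball_mem_nhds t (by positivity)),
        ‖B c₀‖ + 1, r / 2, by positivity, by positivity, fun τ hτ ε hε hερ => ?_⟩
      have hτ' : |τ - t| < r / 2 := by
        rw [Metric.mem_ball, Real.dist_eq] at hτ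
        exact hτ
      have hmem : (1 + ε + τ * Complex.I : ℂ) ∈ Metric.ball c₀ r := by
        rw [Metric.mem_ball, dist_eq_norm]
        have e1 : (1 + ε + τ * Complex.I : ℂ) - c₀ = (ε : ℂ) + ((τ - t : ℝ) : ℂ) * Complex.I := by
          rw [hc₀]
          push_cast
          ring
        rw [e1]
        refine lt_of_le_of_lt (norm_add_le _ _) ?_
        rw [norm_mul, Complex.norm_I, mul_one, Complex.norm_real, Complex.norm_real,
          Real.norm_of_nonneg hε.le, Real.norm_eq_abs]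
        linarith
      obtain ⟨h2, h3⟩ := hball _ hmem
      have h4 := h2 (by simp; exact hε)
      have h5 : (1 + ε + τ * Complex.I : ℂ) - 1 = (ε : ℂ) + τ * Complex.I := by ring
      rw [h4, h5, Complex.add_re, Complex.neg_re, Complex.log_re, one_div, Real.log_inv,
        add_sub_cancel_left]
      exact (Complex.abs_re_le_norm _).trans h3.le
  obtain ⟨C, ρ, hC, hρ, h⟩ := hkey
  set ρ₁ : ℝ := min ρ 1 with hρ₁
  have hρ₁0 : 0 < ρ₁ := lt_min hρ one_pos
  set S : ℝ := ∑' p : Nat.Primes, (Module.finrank ℚ L : ℝ) * ((p : ℕ) : ℝ) ^ (-(1 + ρ₁)) with hS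
  have hsum : Summable fun p : Nat.Primes => (Module.finrank ℚ L : ℝ) * ((p : ℕ) : ℝ) ^ (-(1 + ρ₁)) :=
    (Nat.Primes.summable_rpow.2 (by linarith)).mul_left _
  have hS0 : 0 ≤ S := tsum_nonneg fun p => by positivity
  refine ⟨C + S + |Real.log (1 / ρ₁)| + |Real.log (1 + |T|)|, by positivity, fun ε τ hε hε1 hτ => ?_⟩
  have g0 := abs_nonneg (Real.log (1 / ρ₁))
  have g1 := abs_nonneg (Real.log (1 + |T|))
  by_cases hle : ε < ρ₁
  · have h1 := h τ (abs_le.mp hτ) ε hε (lt_of_lt_of_le hle (min_le_left _ _))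
    linarith
  · push Not at hle
    have h2 : ‖PS L (1 + ε + τ * Complex.I)‖ ≤ S := by
      unfold PS
      refine tsum_of_norm_bounded hsum.hasSum fun p => ?_
      rw [norm_mul, Complex.norm_natCast, Complex.norm_natCast_cpow_of_pos p.2.pos, Complex.neg_re]
      have hp1 : (1 : ℝ) ≤ ((p : ℕ) : ℝ) := by exact_mod_cast p.2.one_lt.le
      have h3 : ((p : ℕ) : ℝ) ^ (-(1 + ε + τ * Complex.I : ℂ).re) ≤ ((p : ℕ) : ℝ) ^ (-(1 + ρ₁)) :=
        Real.rpow_le_rpow_of_exponent_le hp1 (by simp; linarith)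
      exact mul_le_mul (H332.PIT.hc_cast_le p.2) h3 (by positivity) (by positivity)
    have hn1 : ρ₁ ≤ ‖(ε : ℂ) + τ * Complex.I‖ := by
      refine hle.trans ?_
      have := Complex.abs_re_le_norm ((ε : ℂ) + τ * Complex.I)
      simp only [Complex.add_re, Complex.ofReal_re, Complex.mul_re, Complex.I_re, mul_zero,
        Complex.ofReal_im, Complex.I_im, mul_one, sub_self, add_zero] at this
      exact (le_abs_self _).trans this
    have hn0 : 0 < ‖(ε : ℂ) + τ * Complex.I‖ := lt_of_lt_of_le hρ₁0 hn1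
    have hn2 : ‖(ε : ℂ) + τ * Complex.I‖ ≤ 1 + |T| := by
      refine (norm_add_le _ _).trans ?_
      rw [norm_mul, Complex.norm_I, mul_one, Complex.norm_real, Complex.norm_real,
        Real.norm_of_nonneg hε.le, Real.norm_eq_abs]
      have := le_abs_self T
      linarith
    have h3 : |Real.log (1 / ‖(ε : ℂ) + τ * Complex.I‖)| ≤
        |Real.log (1 / ρ₁)| + |Real.log (1 + |T|)| := by
      rw [abs_le]
      constructor
      · have e0 : Real.log (1 / ‖(ε : ℂ) + τ * Complex.I‖) = -Real.log ‖(ε : ℂ) + τ * Complex.I‖ := by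
          rw [one_div, Real.log_inv]
        have e1 := Real.log_le_log hn0 hn2
        have e2 := le_abs_self (Real.log (1 + |T|))
        linarith
      · have e1 : Real.log (1 / ‖(ε : ℂ) + τ * Complex.I‖) ≤ Real.log (1 / ρ₁) :=
          Real.log_le_log (by positivity) (one_div_le_one_div_of_le hρ₁0 hn1)
        have e2 := le_abs_self (Real.log (1 / ρ₁))
        linarith
    have h4 := (Complex.abs_re_le_norm (PS L (1 + ε + τ * Complex.I))).trans h2
    have h5 := abs_sub (PS L (1 + ε + τ * Complex.I)).re (Real.log (1 / ‖(ε : ℂ) + τ * Complex.I‖))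
    linarith

end

end Pool.Agent.L0h50.AB
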