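import Mathlib
import Pool.Agent.R410.NG.Asy
import Pool.Agent.L0h50.AB.Edge

/-!
# Asymptotic values over the prime fields: the logarithm
-/

set_option autoImplicit false

namespace Pool.Agent.L0h50.AB

open NumberField Filter Topology
open Pool.Agent.R410.NG (Ff Asy)
open Pool.Agent.R410.BS (cF cF_le cB cB_nonneg)
open Pool.Agent.Y707.RX (PS PS_summable)

/-- **The logarithm.** -/
theorem asy_log {T : Ff} {e : ℕ} {r : ℝ} (h : Asy T e r) {b : ℝ} (hb : 0 ≤ b) {f : ℕ → ℝ}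
    (hf : ∀ p : ℕ, ∀ [Fact p.Prime], f p = T (ZMod p))
    (hT : ∀ p : ℕ, p.Prime → |f p| ≤ b * (p : ℝ) ^ e) (T₀ : ℝ) :
    ∃ C : ℝ, 0 ≤ C ∧ ∀ ε τ : ℝ, 0 < ε → ε ≤ 1 → |τ| ≤ T₀ →
      |(∑' p : Nat.Primes, (f p : ℂ) * ((p : ℕ) : ℂ) ^ (-((e : ℂ) + 1 + ε + τ * Complex.I))).re -
        r * Real.log (1 / ‖(ε : ℂ) + τ * Complex.I‖)| ≤ C := by
  obtain ⟨κ, i1, L, i2, i3, a, ha, C, N, hC, hN, h1⟩ := h
  choose D hD0 hD using fun j => PS_edge (L j) T₀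
  set S : ℝ := ∑' p : Nat.Primes, ((p : ℕ) : ℝ) ^ (-(3 / 2) : ℝ) with hS
  have hsumS : Summable fun p : Nat.Primes => ((p : ℕ) : ℝ) ^ (-(3 / 2) : ℝ) :=
    Nat.Primes.summable_rpow.2 (by norm_num)
  have hS0 : 0 ≤ S := tsum_nonneg fun p => by positivity
  have hcB := cB_nonneg L a
  set K : ℝ := C + (b + cB L a) * √(N : ℝ) with hK
  have hK0 : 0 ≤ K := by positivity
  -- the combination
  set c : ℕ → ℝ := fun p => ∑ j, a j * (Nat.card (𝓞 (L j) →+* ZMod p) : ℝ) with hc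
  -- the difference at one prime
  have hd : ∀ p : ℕ, p.Prime → |f p * (p : ℝ) ^ (-(e : ℝ)) - c p| ≤ K * (p : ℝ) ^ (-(1 / 2) : ℝ) := by
    intro p hp
    have : Fact p.Prime := ⟨hp⟩
    have hp0 : (0 : ℝ) < p := by exact_mod_cast hp.pos
    have hpe : (p : ℝ) ^ (-(e : ℝ)) = ((p : ℝ) ^ e)⁻¹ := by
      rw [Real.rpow_neg hp0.le, Real.rpow_natCast]
    have hpe0 : (0 : ℝ) < (p : ℝ) ^ e := by positivity
    have hcc : c p = cF L a (ZMod p) := rfl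
    have hsq : (p : ℝ) ^ (-(1 / 2) : ℝ) = (√(p : ℝ))⁻¹ := by
      rw [Real.rpow_neg hp0.le, ← Real.sqrt_eq_rpow]
    have hs0 : 0 < √(p : ℝ) := Real.sqrt_pos.2 hp0
    by_cases hpN : ((N : ℕ) : ZMod p) = 0
    · have hdvd : p ∣ N := (ZMod.natCast_eq_zero_iff N p).1 hpN
      have hle : p ≤ N := Nat.le_of_dvd (Nat.pos_of_ne_zero hN) hdvd
      have h2 : |f p * (p : ℝ) ^ (-(e : ℝ))| ≤ b := by
        rw [hpe, abs_mul, abs_of_pos (inv_pos.2 hpe0), ← div_eq_mul_inv, div_le_iff₀ hpe0]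
        exact hT p hp
      have h3 : |c p| ≤ cB L a := by
        rw [hcc]
        exact cF_le L a (ZMod p)
      have h4 : |f p * (p : ℝ) ^ (-(e : ℝ)) - c p| ≤ b + cB L a :=
        (abs_sub _ _).trans (add_le_add h2 h3)
      have h5 : 1 ≤ √(N : ℝ) * (√(p : ℝ))⁻¹ := by
        rw [← div_eq_mul_inv, le_div_iff₀ hs0, one_mul]
        exact Real.sqrt_le_sqrt (by exact_mod_cast hle)
      rw [hsq]
      calc _ ≤ (b + cB L a) * 1 := by rw [mul_one]; exact h4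
        _ ≤ (b + cB L a) * (√(N : ℝ) * (√(p : ℝ))⁻¹) :=
            mul_le_mul_of_nonneg_left h5 (by positivity)
        _ ≤ K * (√(p : ℝ))⁻¹ := by
            rw [hK, add_mul, ← mul_assoc]
            have : 0 ≤ C * (√(p : ℝ))⁻¹ := by positivity
            linarith
    · have h2 := h1 (ZMod p) hpN
      rw [Nat.card_zmod] at h2
      have h3 : f p * (p : ℝ) ^ (-(e : ℝ)) - c p =
          (T (ZMod p) - cF L a (ZMod p) * (p : ℝ) ^ e) * ((p : ℝ) ^ e)⁻¹ := by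
        rw [hpe, hcc, hf p]
        field_simp
      rw [h3, abs_mul, abs_of_pos (inv_pos.2 hpe0), hsq]
      have h4 : |T (ZMod p) - cF L a (ZMod p) * (p : ℝ) ^ e| ≤ C * (p : ℝ) ^ e * (√(p : ℝ))⁻¹ := by
        rw [← div_eq_mul_inv, le_div_iff₀ hs0]
        exact h2
      calc _ ≤ C * (p : ℝ) ^ e * (√(p : ℝ))⁻¹ * ((p : ℝ) ^ e)⁻¹ :=
            mul_le_mul_of_nonneg_right h4 (by positivity)
        _ = C * (√(p : ℝ))⁻¹ := by field_simp
        _ ≤ K * (√(p : ℝ))⁻¹ := by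
            apply mul_le_mul_of_nonneg_right _ (by positivity)
            rw [hK]
            have : 0 ≤ (b + cB L a) * √(N : ℝ) := by positivity
            linarith
  refine ⟨K * S + ∑ j, |a j| * D j, by
    have : ∀ j, 0 ≤ |a j| * D j := fun j => mul_nonneg (abs_nonneg _) (hD0 j)
    have := Finset.sum_nonneg fun j (_ : j ∈ Finset.univ) => this j
    positivity, fun ε τ hε hε1 hτ => ?_⟩
  set w : ℂ := 1 + ε + τ * Complex.I with hw
  have hwre : w.re = 1 + ε := by simp [hw]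
  -- the combination of the series
  have hPS : HasSum (fun p : Nat.Primes => (c p : ℂ) * ((p : ℕ) : ℂ) ^ (-w))
      (∑ j, (a j : ℂ) * PS (L j) w) := by
    have h2 : ∀ j, HasSum (fun p : Nat.Primes => (a j : ℂ) *
        ((Nat.card (𝓞 (L j) →+* ZMod (p : ℕ)) : ℂ) * ((p : ℕ) : ℂ) ^ (-w)))
        ((a j : ℂ) * PS (L j) w) := fun j =>
      (PS_summable (L j) (by rw [hwre]; linarith)).hasSum.mul_left _
    have h3 := hasSum_sum (s := Finset.univ) fun j _ => h2 j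
    refine Eq.mp (congrArg (fun u => HasSum u _) (funext fun p => ?_)) h3
    rw [hc]
    push_cast
    rw [Finset.sum_mul]
    exact Finset.sum_congr rfl fun j _ => by ring
  -- the difference of the series
  have hdif : ∀ p : Nat.Primes, ‖(f p : ℂ) * ((p : ℕ) : ℂ) ^ (-((e : ℂ) + 1 + ε + τ * Complex.I)) -
      (c p : ℂ) * ((p : ℕ) : ℂ) ^ (-w)‖ ≤ K * ((p : ℕ) : ℝ) ^ (-(3 / 2) : ℝ) := by
    intro p
    have hp0 : (0 : ℝ) < ((p : ℕ) : ℝ) := by exact_mod_cast p.2.pos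
    have hpc : ((p : ℕ) : ℂ) ≠ 0 := by exact_mod_cast p.2.ne_zero
    have hp1 : (1 : ℝ) ≤ ((p : ℕ) : ℝ) := by exact_mod_cast p.2.one_lt.le
    have e2 : ((p : ℕ) : ℂ) ^ (-(e : ℂ)) = ((((p : ℕ) : ℝ) ^ (-(e : ℝ)) : ℝ) : ℂ) := by
      rw [Complex.ofReal_cpow hp0.le]
      push_cast
      rfl
    have e1 : (f p : ℂ) * ((p : ℕ) : ℂ) ^ (-((e : ℂ) + 1 + ε + τ * Complex.I)) -
        (c p : ℂ) * ((p : ℕ) : ℂ) ^ (-w) =
        ((f p * ((p : ℕ) : ℝ) ^ (-(e : ℝ)) - c p : ℝ) : ℂ) * ((p : ℕ) : ℂ) ^ (-w) := by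
      rw [show -((e : ℂ) + 1 + ε + τ * Complex.I) = -(e : ℂ) + -w by rw [hw]; ring,
        Complex.cpow_add _ _ hpc, e2]
      push_cast
      ring
    rw [e1, norm_mul, Complex.norm_real, Real.norm_eq_abs, Complex.norm_natCast_cpow_of_pos p.2.pos,
      Complex.neg_re, hwre]
    calc _ ≤ K * ((p : ℕ) : ℝ) ^ (-(1 / 2) : ℝ) * ((p : ℕ) : ℝ) ^ (-(1 : ℝ)) := by
          apply mul_le_mul (hd p p.2) _ (by positivity) (by positivity)
          exact Real.rpow_le_rpow_of_exponent_le hp1 (by linarith)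
      _ = _ := by
          rw [mul_assoc, ← Real.rpow_add hp0]
          norm_num
  have hDs : Summable fun p : Nat.Primes =>
      (f p : ℂ) * ((p : ℕ) : ℂ) ^ (-((e : ℂ) + 1 + ε + τ * Complex.I)) -
      (c p : ℂ) * ((p : ℕ) : ℂ) ^ (-w) := Summable.of_norm_bounded (hsumS.mul_left K) hdif
  have hT' : ∑' p : Nat.Primes, (f p : ℂ) * ((p : ℕ) : ℂ) ^ (-((e : ℂ) + 1 + ε + τ * Complex.I)) =
      ∑' p : Nat.Primes, ((f p : ℂ) * ((p : ℕ) : ℂ) ^ (-((e : ℂ) + 1 + ε + τ * Complex.I)) -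
        (c p : ℂ) * ((p : ℕ) : ℂ) ^ (-w)) + ∑ j, (a j : ℂ) * PS (L j) w := by
    rw [← hPS.tsum_eq, ← hDs.tsum_add hPS.summable]
    exact tsum_congr fun p => by ring
  have h4 : ‖∑' p : Nat.Primes, ((f p : ℂ) * ((p : ℕ) : ℂ) ^ (-((e : ℂ) + 1 + ε + τ * Complex.I)) -
        (c p : ℂ) * ((p : ℕ) : ℂ) ^ (-w))‖ ≤ K * S := by
    have := tsum_of_norm_bounded (hsumS.mul_left K).hasSum hdif
    rwa [tsum_mul_left] at this
  have h5 : |(∑ j, (a j : ℂ) * PS (L j) w).re - r * Real.log (1 / ‖(ε : ℂ) + τ * Complex.I‖)| ≤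
      ∑ j, |a j| * D j := by
    rw [Complex.re_sum, ← ha, Finset.sum_mul, ← Finset.sum_sub_distrib]
    refine (Finset.abs_sum_le_sum_abs _ _).trans (Finset.sum_le_sum fun j _ => ?_)
    rw [Complex.re_ofReal_mul, ← mul_sub, abs_mul]
    exact mul_le_mul_of_nonneg_left (hD j ε τ hε hε1 hτ) (abs_nonneg _)
  rw [hT', Complex.add_re, add_sub_assoc]
  exact (abs_add_le _ _).trans (add_le_add ((Complex.abs_re_le_norm _).trans h4) h5)

end Pool.Agent.L0h50.AB
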