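import Mathlib
import Pool.Agent.L0h50.NL.Poly
import Pool.Agent.Y722.LS.Gen

/-!
# Functions of the reduction with values in the complex numbers: the deviation from the mean
-/

set_option autoImplicit false

namespace Pool.Agent.L0h50.AB

open Finset Pool.Agent.Y722.HS Pool.Agent.Y722.LS Pool.Agent.N534.TL Pool.Agent.L0h50.NL

section
variable {ι : Type} [Fintype ι] [DecidableEq ι] {t : ∀ p : ℕ, (ι → ZMod p) → ℂ} {P : MvPolynomial ι ℤ}
  {n p₀ : ℕ} {b : ℝ}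

/-- The value of `P` at a point over `ℤ/p`. -/
noncomputable def at' (P : MvPolynomial ι ℤ) (p : ℕ) (y : ι → ZMod p) : ZMod p :=
  MvPolynomial.eval₂ (Int.castRingHom (ZMod p)) y P

/-- The bound of the traces at the good points. -/
def Bd (n p₀ : ℕ) (t : ∀ p : ℕ, (ι → ZMod p) → ℂ) (P : MvPolynomial ι ℤ) (b : ℝ) : Prop :=
  0 ≤ b ∧ ∀ p : ℕ, p.Prime → p₀ ≤ p → ∀ y, at' P p y ≠ 0 → ‖t p y‖ ≤ b * (p : ℝ) ^ ((n : ℝ) / 2)

open Classical in
/-- The trace at the good points, `0` at the others. -/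
noncomputable def gt (p₀ : ℕ) (t : ∀ p : ℕ, (ι → ZMod p) → ℂ) (P : MvPolynomial ι ℤ)
    (p : ℕ) (y : ι → ZMod p) : ℂ :=
  if p < p₀ ∨ at' P p y = 0 then 0 else t p y

open Classical in
/-- The mean. -/
noncomputable def mn (p₀ : ℕ) (t : ∀ p : ℕ, (ι → ZMod p) → ℂ) (P : MvPolynomial ι ℤ) (p : ℕ) : ℂ :=
  if h : p.Prime then
    haveI := Fact.mk h
    (∑ y : ι → ZMod p, gt p₀ t P p y) / (p : ℂ) ^ Fintype.card ι
  else 0

theorem mn_eq (p : ℕ) [hF : Fact p.Prime] :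
    mn p₀ t P p = (∑ y : ι → ZMod p, gt p₀ t P p y) / (p : ℂ) ^ Fintype.card ι := by
  unfold mn
  rw [dif_pos hF.out]

theorem norm_gt (h : Bd n p₀ t P b) (p : ℕ) (hp : p.Prime) (y : ι → ZMod p) :
    ‖gt p₀ t P p y‖ ≤ b * (p : ℝ) ^ ((n : ℝ) / 2) := by
  have := h.1
  unfold gt
  split_ifs with h1
  · rw [norm_zero]
    positivity
  · push Not at h1
    exact h.2 p hp h1.1 y h1.2

theorem norm_mn (h : Bd n p₀ t P b) (p : ℕ) (hp : p.Prime) :
    ‖mn p₀ t P p‖ ≤ b * (p : ℝ) ^ ((n : ℝ) / 2) := by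
  have := Fact.mk hp
  have hp0 : (0 : ℝ) < p := by exact_mod_cast hp.pos
  rw [mn_eq, norm_div, norm_pow, Complex.norm_natCast, div_le_iff₀ (by positivity)]
  refine (norm_sum_le _ _).trans ((Finset.sum_le_sum fun y _ => norm_gt h p hp y).trans ?_)
  rw [Finset.sum_const, nsmul_eq_mul, Finset.card_univ, Fintype.card_fun, ZMod.card]
  push_cast
  apply le_of_eq
  ring

/-- The real part of the normalised deviation. -/
noncomputable def N1 (n p₀ : ℕ) (t : ∀ p : ℕ, (ι → ZMod p) → ℂ) (P : MvPolynomial ι ℤ)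
    (p : ℕ) (y : ι → ZMod p) : ℝ :=
  (gt p₀ t P p y - mn p₀ t P p).re / (p : ℝ) ^ ((n : ℝ) / 2 + 1)

/-- The imaginary part of the normalised deviation. -/
noncomputable def N2 (n p₀ : ℕ) (t : ∀ p : ℕ, (ι → ZMod p) → ℂ) (P : MvPolynomial ι ℤ)
    (p : ℕ) (y : ι → ZMod p) : ℝ :=
  (gt p₀ t P p y - mn p₀ t P p).im / (p : ℝ) ^ ((n : ℝ) / 2 + 1)

theorem sum_dev0 (p : ℕ) [hF : Fact p.Prime] :
    ∑ y : ι → ZMod p, (gt p₀ t P p y - mn p₀ t P p) = 0 := by
  have hp0 : (p : ℂ) ≠ 0 := by exact_mod_cast hF.out.ne_zero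
  rw [Finset.sum_sub_distrib, Finset.sum_const, nsmul_eq_mul, Finset.card_univ, Fintype.card_fun, ZMod.card,
    mn_eq]
  push_cast
  field_simp
  ring

theorem dev_le (h : Bd n p₀ t P b) (p : ℕ) (hp : p.Prime) (y : ι → ZMod p) :
    ‖gt p₀ t P p y - mn p₀ t P p‖ / (p : ℝ) ^ ((n : ℝ) / 2 + 1) ≤ 2 * b / p := by
  have hp0 : (0 : ℝ) < p := by exact_mod_cast hp.pos
  rw [div_le_div_iff₀ (by positivity) hp0, Real.rpow_add hp0, Real.rpow_one]
  have h1 := norm_sub_le (gt p₀ t P p y) (mn p₀ t P p)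
  have h2 := norm_gt h p hp y
  have h3 := norm_mn h p hp
  calc _ ≤ (b * (p : ℝ) ^ ((n : ℝ) / 2) + b * (p : ℝ) ^ ((n : ℝ) / 2)) * p := by gcongr; linarith
    _ = _ := by ring

theorem bad_le (p₀ : ℕ) (c0 : ι → ℤ) (hP : MvPolynomial.eval c0 P ≠ 0) (p : ℕ) [hF : Fact p.Prime] :
    EM p (fun c : ι → ZMod p => BB P p₀ p c) ≤
      (1 + p₀ + P.totalDegree + |(MvPolynomial.eval c0 P : ℝ)|) / p := by
  classical
  set A : ℝ := 1 + p₀ + P.totalDegree + |(MvPolynomial.eval c0 P : ℝ)| with hA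
  have hp00 : (0 : ℝ) ≤ p₀ := by positivity
  have hdeg0 : (0 : ℝ) ≤ P.totalDegree := by positivity
  have hev0 : (0 : ℝ) ≤ |(MvPolynomial.eval c0 P : ℝ)| := abs_nonneg _
  have hp := hF.out
  have hp0 : (0 : ℝ) < p := by exact_mod_cast hp.pos
  have hle1 : EM p (fun c : ι → ZMod p => BB P p₀ p c) ≤ 1 := by
    rw [← EM_const (ι := ι) p 1]
    apply EM_mono
    intro c
    unfold BB
    split_ifs <;> norm_num
  have hsmall : (p : ℝ) ≤ A → EM p (fun c : ι → ZMod p => BB P p₀ p c) ≤ A / p := by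
    intro h
    refine hle1.trans ?_
    rw [le_div_iff₀ hp0, one_mul]
    exact h
  by_cases hlt : p < p₀
  · apply hsmall
    have : (p : ℝ) ≤ p₀ := by exact_mod_cast hlt.le
    linarith
  · by_cases hdvd : (p : ℤ) ∣ MvPolynomial.eval c0 P
    · apply hsmall
      have h1 : (p : ℤ) ≤ |MvPolynomial.eval c0 P| :=
        Int.le_of_dvd (abs_pos.mpr hP) ((dvd_abs _ _).mpr hdvd)
      have h2 : (p : ℝ) ≤ |(MvPolynomial.eval c0 P : ℝ)| := by exact_mod_cast h1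
      linarith
    · have h1 := card_zeros P c0 p hdvd
      have h2 : ∑ c : ι → ZMod p, BB P p₀ p c = ((Nat.card {c : ι → ZMod p //
          MvPolynomial.eval₂ (Int.castRingHom (ZMod p)) c P = 0} : ℕ) : ℝ) := by
        rw [Nat.card_eq_fintype_card, Fintype.card_subtype]
        simp [BB, hlt]
      have hM : (0 : ℝ) < (p : ℝ) ^ Fintype.card ι := by positivity
      unfold EM
      rw [h2, div_le_div_iff₀ hM hp0]
      refine h1.trans ?_
      gcongr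
      linarith

/-- The constant of the family. -/
noncomputable def AA (b : ℝ) (p₀ : ℕ) (P : MvPolynomial ι ℤ) (c0 : ι → ℤ) : ℝ :=
  4 * b ^ 2 + (1 + p₀ + P.totalDegree + |(MvPolynomial.eval c0 P : ℝ)|)

theorem AA_one (b : ℝ) (p₀ : ℕ) (c0 : ι → ℤ) : 1 ≤ AA b p₀ P c0 := by
  unfold AA
  have h1 : (0 : ℝ) ≤ p₀ := by positivity
  have h2 : (0 : ℝ) ≤ P.totalDegree := by positivity
  have h3 : (0 : ℝ) ≤ |(MvPolynomial.eval c0 P : ℝ)| := abs_nonneg _
  have h4 : (0 : ℝ) ≤ 4 * b ^ 2 := by positivity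
  linarith

theorem fam_aux (h : Bd n p₀ t P b) (c0 : ι → ℤ) (hP : MvPolynomial.eval c0 P ≠ 0)
    (f : ∀ p : ℕ, (ι → ZMod p) → ℝ) (hf0 : ∀ (p : ℕ) [Fact p.Prime], ∑ y, f p y = 0)
    (hf : ∀ (p : ℕ) (_ : p.Prime) (y : ι → ZMod p),
      |f p y| ≤ ‖gt p₀ t P p y - mn p₀ t P p‖ / (p : ℝ) ^ ((n : ℝ) / 2 + 1)) :
    Fam (AA b p₀ P c0) f (BB P p₀) := by
  classical
  have hb := h.1
  have hA1 := AA_one (P := P) b p₀ c0
  refine ⟨hA1, ?_, ?_, ?_, ?_, ?_⟩
  · intro p hpF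
    have hp := hpF.out
    have hp0 : (0 : ℝ) < p := by exact_mod_cast hp.pos
    have h1 : EM p (fun c : ι → ZMod p => f p c ^ 2) ≤ EM p (fun _ : ι → ZMod p => (2 * b / p : ℝ) ^ 2) := by
      apply EM_mono
      intro c
      rw [← sq_abs]
      exact pow_le_pow_left₀ (abs_nonneg _) ((hf p hp c).trans (dev_le h p hp c)) 2
    refine h1.trans ?_
    rw [EM_const, div_pow]
    gcongr
    unfold AA
    have h3 : (0 : ℝ) ≤ p₀ := by positivity
    have h4 : (0 : ℝ) ≤ P.totalDegree := by positivity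
    have h5 : (0 : ℝ) ≤ |(MvPolynomial.eval c0 P : ℝ)| := abs_nonneg _
    nlinarith
  · intro p hpF
    have hp0 : (0 : ℝ) < p := by exact_mod_cast hpF.out.pos
    rw [EM, hf0 p]
    simp only [zero_div, abs_zero]
    positivity
  · intro p c
    unfold BB
    split_ifs <;> norm_num
  · intro p c
    unfold BB
    split_ifs <;> norm_num
  · intro p hpF
    have hp0 : (0 : ℝ) < p := by exact_mod_cast hpF.out.pos
    refine (bad_le p₀ c0 hP p).trans ?_
    gcongr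
    unfold AA
    have h4 : (0 : ℝ) ≤ 4 * b ^ 2 := by positivity
    linarith

theorem fam1 (h : Bd n p₀ t P b) (c0 : ι → ℤ) (hP : MvPolynomial.eval c0 P ≠ 0) :
    Fam (AA b p₀ P c0) (N1 n p₀ t P) (BB P p₀) := by
  apply fam_aux h c0 hP
  · intro p hF
    unfold N1
    rw [← Finset.sum_div, ← Complex.re_sum, sum_dev0]
    simp
  · intro p hp y
    have hp0 : (0 : ℝ) < p := by exact_mod_cast hp.pos
    unfold N1
    rw [abs_div, abs_of_pos (by positivity : (0 : ℝ) < (p : ℝ) ^ ((n : ℝ) / 2 + 1))]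
    gcongr
    exact Complex.abs_re_le_norm _

theorem fam2 (h : Bd n p₀ t P b) (c0 : ι → ℤ) (hP : MvPolynomial.eval c0 P ≠ 0) :
    Fam (AA b p₀ P c0) (N2 n p₀ t P) (BB P p₀) := by
  apply fam_aux h c0 hP
  · intro p hF
    unfold N2
    rw [← Finset.sum_div, ← Complex.im_sum, sum_dev0]
    simp
  · intro p hp y
    have hp0 : (0 : ℝ) < p := by exact_mod_cast hp.pos
    unfold N2
    rw [abs_div, abs_of_pos (by positivity : (0 : ℝ) < (p : ℝ) ^ ((n : ℝ) / 2 + 1))]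
    gcongr
    exact Complex.abs_im_le_norm _

end

end Pool.Agent.L0h50.AB
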