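import Mathlib
import Pool.Agent.R410.NG.Ck
import Pool.Agent.L0h50.AB.Gen
import Pool.Agent.L0h50.AB.Log
import Pool.Agent.L0h50.AB.Main
import Pool.Agent.L0h50.AB.Defs

/-!
# The products of the curves of pencils: the mean series
-/

set_option autoImplicit false

namespace Pool.Agent.L0h50.AB

open Polynomial
open Pool.Agent.R410.NG (Ff Asy trc trc_iso w2 w2_bound c2 c2_nonneg sT asy_w2 phA phA_apply phA_frac finsum_sub nn1 nn2)
open Pool.Agent.R410.CB (fq fq_eq deg_fq)
open Pool.Agent.Y722.HS (red)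

section
variable {σ : Type} [Fintype σ] [DecidableEq σ]

/-- the homomorphism of a point -/
noncomputable def homAt (p : ℕ) (y : Option σ → ZMod p) : (MvPolynomial σ ℤ)[X] →+* ZMod p :=
  eval₂RingHom (MvPolynomial.eval₂Hom (Int.castRingHom (ZMod p)) fun i => y (some i)) (y none)

/-- the homomorphisms and the points -/
noncomputable def homEquiv (p : ℕ) : ((MvPolynomial σ ℤ)[X] →+* ZMod p) ≃ (Option σ → ZMod p) where
  toFun φ := fun o => o.elim (φ X) fun i => φ (C (MvPolynomial.X i))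
  invFun y := homAt p y
  left_inv φ := by
    unfold homAt
    refine Polynomial.ringHom_ext' ?_ ?_
    · refine MvPolynomial.ringHom_ext (fun r => ?_) fun i => ?_
      · rw [RingHom.comp_apply, coe_eval₂RingHom, eval₂_C, MvPolynomial.coe_eval₂Hom, MvPolynomial.eval₂_C,
          RingHom.comp_apply]
        have : (C (MvPolynomial.C r : MvPolynomial σ ℤ) : (MvPolynomial σ ℤ)[X]) =
            (r : (MvPolynomial σ ℤ)[X]) := by simp
        rw [this, map_intCast]
        rfl
      · rw [RingHom.comp_apply, coe_eval₂RingHom, eval₂_C, MvPolynomial.coe_eval₂Hom, MvPolynomial.eval₂_X,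
          RingHom.comp_apply]
        rfl
    · rw [coe_eval₂RingHom, eval₂_X]
      rfl
  right_inv y := by
    funext o
    unfold homAt
    cases o with
    | none => simp
    | some i => simp

/-- the polynomial of the bad points -/
noncomputable def badP (P : MvPolynomial (Option σ) ℤ) : (MvPolynomial σ ℤ)[X] :=
  MvPolynomial.optionEquivLeft ℤ σ P

theorem homAt_bad (P : MvPolynomial (Option σ) ℤ) (p : ℕ) (y : Option σ → ZMod p) :
    homAt p y (badP P) = at' P p y := by
  have h : (homAt p y).comp (MvPolynomial.optionEquivLeft ℤ σ : MvPolynomial (Option σ) ℤ →+* (MvPolynomial σ ℤ)[X]) =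
      MvPolynomial.eval₂Hom (Int.castRingHom (ZMod p)) y := by
    refine MvPolynomial.ringHom_ext (fun r => ?_) fun o => ?_
    · simp
    · unfold homAt
      cases o with
      | none => simp [MvPolynomial.optionEquivLeft_X_none]
      | some i => simp [MvPolynomial.optionEquivLeft_X_some]
  exact congrArg (fun f : MvPolynomial (Option σ) ℤ →+* ZMod p => f P) h

theorem badP_ne {P : MvPolynomial (Option σ) ℤ} (hP : P ≠ 0) : badP P ≠ 0 := by
  intro h
  apply hP
  exact (MvPolynomial.optionEquivLeft ℤ σ).injective (by rw [map_zero]; exact h)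

variable {m : ℕ} (b c : Fin m → (MvPolynomial σ ℤ)[X])

/-- the model of the curves -/
noncomputable def gg (i : Fin m) : (MvPolynomial σ ℤ)[X][X] := (c i).map C + C X * (b i).map C

/-- the curves over `ℤ / p` -/
noncomputable def gy (p : ℕ) (y : Option σ → ZMod p) (i : Fin m) : (ZMod p)[X] :=
  (c i).map (MvPolynomial.eval₂Hom (Int.castRingHom (ZMod p)) fun i => y (some i)) +
    C (y none) * (b i).map (MvPolynomial.eval₂Hom (Int.castRingHom (ZMod p)) fun i => y (some i))

theorem gg_map (p : ℕ) (y : Option σ → ZMod p) (i : Fin m) : (gg b c i).map (homAt p y) = gy b c p y i := by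
  unfold gg gy
  have h : (homAt p y).comp C = MvPolynomial.eval₂Hom (Int.castRingHom (ZMod p)) fun i => y (some i) := by
    refine RingHom.ext fun z => ?_
    unfold homAt
    rw [RingHom.comp_apply, coe_eval₂RingHom, eval₂_C]
  rw [Polynomial.map_add, Polynomial.map_mul, Polynomial.map_map, Polynomial.map_map, h, Polynomial.map_C]
  congr 2
  unfold homAt
  rw [coe_eval₂RingHom, eval₂_X]

open Classical in
/-- the trace on `H²` divided by `p` -/
noncomputable def wy (p : ℕ) (y : Option σ → ZMod p) : ℝ :=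
  if h : p.Prime then
    haveI := Fact.mk h
    w2 m (ZMod p) (gy b c p y)
  else 0

/-- the trace on `H²` -/
noncomputable def ty (p : ℕ) (y : Option σ → ZMod p) : ℂ := (p : ℂ) * (wy b c p y : ℂ)

theorem wy_eq (p : ℕ) [hp : Fact p.Prime] (y : Option σ → ZMod p) :
    wy b c p y = w2 m (ZMod p) (gy b c p y) := by
  unfold wy
  rw [dif_pos hp.out]

variable {b c} {g : Fin m → ℕ}

theorem gy_monic (hc : ∀ i, (c i).Monic) (hcd : ∀ i, (c i).natDegree = 2 * g i + 1)
    (hb : ∀ i, (b i).natDegree < 2 * g i + 1) (p : ℕ) [hp : Fact p.Prime] (y : Option σ → ZMod p) (i : Fin m) :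
    (gy b c p y i).Monic ∧ (gy b c p y i).natDegree = 2 * g i + 1 := by
  unfold gy
  set f : MvPolynomial σ ℤ →+* ZMod p := MvPolynomial.eval₂Hom (Int.castRingHom (ZMod p)) fun i => y (some i)
  have h1 : ((c i).map f).Monic := (hc i).map f
  have h2 : ((c i).map f).natDegree = 2 * g i + 1 := by rw [(hc i).natDegree_map, hcd i]
  have h3 : (C (y none) * (b i).map f).degree < ((c i).map f).degree := by
    refine lt_of_le_of_lt (degree_mul_le _ _) ?_
    refine lt_of_le_of_lt (add_le_add degree_C_le degree_map_le) ?_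
    rw [zero_add]
    rw [degree_eq_natDegree h1.ne_zero, h2]
    refine lt_of_le_of_lt degree_le_natDegree ?_
    exact_mod_cast hb i
  refine ⟨h1.add_of_left h3, ?_⟩
  rw [natDegree_add_eq_left_of_degree_lt h3, h2]

theorem wy_bound (hc : ∀ i, (c i).Monic) (hcd : ∀ i, (c i).natDegree = 2 * g i + 1)
    (hb : ∀ i, (b i).natDegree < 2 * g i + 1) (p : ℕ) (y : Option σ → ZMod p) :
    |wy b c p y| ≤ c2 fun i => 2 * g i + 1 := by
  unfold wy
  split_ifs with h
  · have := Fact.mk h
    exact w2_bound (fun i => ⟨g i, rfl⟩) (ZMod p) _ fun j => gy_monic hc hcd hb p y j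
  · rw [abs_zero]
    exact c2_nonneg _

theorem bd (hc : ∀ i, (c i).Monic) (hcd : ∀ i, (c i).natDegree = 2 * g i + 1)
    (hb : ∀ i, (b i).natDegree < 2 * g i + 1) (p₀ : ℕ) (P : MvPolynomial (Option σ) ℤ) :
    Bd 2 p₀ (ty b c) P (c2 fun i => 2 * g i + 1) := by
  refine ⟨c2_nonneg _, fun p hp _ y _ => ?_⟩
  unfold ty
  rw [norm_mul, Complex.norm_natCast, Complex.norm_real, Real.norm_eq_abs, mul_comm]
  have e : (((2 : ℕ) : ℝ) / 2) = 1 := by norm_num
  rw [e, Real.rpow_one]
  exact mul_le_mul_of_nonneg_right (wy_bound hc hcd hb p y) (Nat.cast_nonneg _)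

open Classical in
/-- the sum over the points -/
noncomputable def fs (b c : Fin m → (MvPolynomial σ ℤ)[X]) (P : MvPolynomial (Option σ) ℤ) (p₀ : ℕ) (p : ℕ) : ℝ :=
  if h : p.Prime then
    haveI := Fact.mk h
    if p < p₀ then 0 else ∑ y : Option σ → ZMod p, if at' P p y ≠ 0 then wy b c p y else 0
  else 0

open Classical in
theorem sT_eq (b c : Fin m → (MvPolynomial σ ℤ)[X]) (P : MvPolynomial (Option σ) ℤ) (p : ℕ) [hp : Fact p.Prime] :
    sT (w2 m) (gg b c) (badP P) (ZMod p) =
      ∑ y : Option σ → ZMod p, if at' P p y ≠ 0 then wy b c p y else 0 := by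
  have : Fintype ((MvPolynomial σ ℤ)[X] →+* ZMod p) := Fintype.ofEquiv _ (homEquiv p).symm
  unfold sT
  rw [finsum_sub (fun φ : (MvPolynomial σ ℤ)[X] →+* ZMod p => φ (badP P) ≠ 0)
    (fun φ => w2 m (ZMod p) (fun j => (gg b c j).map φ))]
  refine Fintype.sum_equiv (homEquiv p) _ _ fun φ => ?_
  obtain ⟨y, rfl⟩ := (homEquiv p).symm.surjective φ
  rw [Equiv.apply_symm_apply]
  have h1 : (homEquiv p).symm y = homAt p y := rfl
  rw [h1, homAt_bad, wy_eq]
  have h2 : (fun j => (gg b c j).map (homAt p y)) = gy b c p y := funext fun j => gg_map b c p y j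
  rw [h2]

theorem fs_bound (hc : ∀ i, (c i).Monic) (hcd : ∀ i, (c i).natDegree = 2 * g i + 1)
    (hb : ∀ i, (b i).natDegree < 2 * g i + 1) (P : MvPolynomial (Option σ) ℤ) (p₀ p : ℕ) (hp : p.Prime) :
    |fs b c P p₀ p| ≤ (c2 fun i => 2 * g i + 1) * (p : ℝ) ^ (Fintype.card σ + 1) := by
  classical
  have := Fact.mk hp
  have h0 := c2_nonneg (fun i : Fin m => 2 * g i + 1)
  unfold fs
  rw [dif_pos hp]
  split_ifs with h
  · rw [abs_zero]
    positivity
  · refine (Finset.abs_sum_le_sum_abs _ _).trans ?_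
    refine (Finset.sum_le_card_nsmul _ _ (c2 fun i => 2 * g i + 1) fun y _ => ?_).trans ?_
    · split_ifs
      · exact wy_bound hc hcd hb p y
      · rw [abs_zero]
        exact h0
    · rw [nsmul_eq_mul, Finset.card_univ, Fintype.card_fun, ZMod.card, Fintype.card_option]
      push_cast
      rw [mul_comm]

/-- The mean. -/
theorem mn_fs (P : MvPolynomial (Option σ) ℤ) (p₀ p : ℕ) (hp : p.Prime) :
    mn p₀ (ty b c) P p = (fs b c P p₀ p : ℂ) * (p : ℂ) / (p : ℂ) ^ (Fintype.card σ + 1) := by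
  classical
  have := Fact.mk hp
  rw [mn_eq, Fintype.card_option]
  congr 1
  unfold fs
  rw [dif_pos hp]
  split_ifs with h
  · rw [Complex.ofReal_zero, zero_mul]
    refine Finset.sum_eq_zero fun y _ => ?_
    unfold gt
    rw [if_pos (Or.inl h)]
  · rw [Complex.ofReal_sum, Finset.sum_mul]
    refine Finset.sum_congr rfl fun y _ => ?_
    unfold gt ty
    by_cases h1 : at' P p y = 0
    · rw [if_pos (Or.inr h1), if_neg (not_not.mpr h1), Complex.ofReal_zero, zero_mul]
    · rw [if_neg (by push Not; exact ⟨by omega, h1⟩), if_pos h1, mul_comm]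

/-- The mean series. -/
theorem ms_fs (P : MvPolynomial (Option σ) ℤ) (p₀ : ℕ) (s : ℂ) :
    ms p₀ (ty b c) P (fun _ _ => 1 : ℕ → Fin 1 → ℂ) ((2 : ℕ) / 2 + 1 + s) =
      ∑' p : Nat.Primes, (fs b c P p₀ p : ℂ) * ((p : ℕ) : ℂ) ^ (-(((Fintype.card σ + 1 : ℕ) : ℂ) + 1 + s)) := by
  unfold ms
  refine tsum_congr fun p => ?_
  have hpc : ((p : ℕ) : ℂ) ≠ 0 := by exact_mod_cast p.2.ne_zero
  rw [mn_fs P p₀ p p.2]
  have e1 : ((p : ℕ) : ℂ) ^ (-(((Fintype.card σ + 1 : ℕ) : ℂ) + 1 + s)) =
      ((p : ℕ) : ℂ) ^ (-((2 : ℕ) / 2 + 1 + s : ℂ)) * ((p : ℕ) : ℂ) * (((p : ℕ) : ℂ) ^ (Fintype.card σ + 1))⁻¹ := by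
    rw [← Complex.cpow_natCast ((p : ℕ) : ℂ) (Fintype.card σ + 1), ← Complex.cpow_neg,
      show -(((Fintype.card σ + 1 : ℕ) : ℂ) + 1 + s) =
        (-((2 : ℕ) / 2 + 1 + s : ℂ) + 1) + -((Fintype.card σ + 1 : ℕ) : ℂ) by push_cast; ring,
      Complex.cpow_add _ _ hpc, Complex.cpow_add _ _ hpc, Complex.cpow_one]
  rw [e1]
  simp only [Finset.univ_unique, Finset.sum_const, Finset.card_singleton, one_smul, mul_one]
  rw [div_eq_mul_inv]
  ring

end

end Pool.Agent.L0h50.AB
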