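import Mathlib
import Pool.Agent.L0h50.AB.Alg

/-!
# The products of the curves of pencils: the ranks and the mean series
-/

set_option autoImplicit false

namespace Pool.Agent.L0h50.AB

open Polynomial
open Pool.Agent.R410.NG (Ff Asy trc trc_iso w2 w2_bound c2 c2_nonneg sT asy_w2 phA phA_apply phA_frac finsum_sub nn1 nn2)
open Pool.Agent.R410.CB (fq fq_eq deg_fq)
open Pool.Agent.Y707.PC (up up_def)
open Pool.Agent.Y722.HS (red)

section
variable {σ : Type} [Fintype σ] [DecidableEq σ] {m : ℕ} {g : Fin m → ℕ} {b c : Fin m → (MvPolynomial σ ℤ)[X]}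

instance : CharZero (BaseField σ) := charZero_of_injective_algebraMap
    (algebraMap (MM σ) (BaseField σ)).injective

/-- the polynomials over the field -/
noncomputable def toM (b : Fin m → (MvPolynomial σ ℤ)[X]) (i : Fin m) : (MM σ)[X] :=
  (b i).map (algebraMap (MvPolynomial σ ℤ) (MM σ))

theorem toM_deg (b : Fin m → (MvPolynomial σ ℤ)[X]) (i : Fin m) : (toM b i).natDegree = (b i).natDegree :=
  natDegree_map_eq_of_injective (IsFractionRing.injective _ _) _

theorem generic_eq (i : Fin m) : generic (b i) (c i) = fq 0 (toM b i) (toM c i) (RatFunc.X : BaseField σ) := by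
  rw [fq_eq, up_def, up_def, up_def, Polynomial.map_zero, mul_zero, add_zero]
  unfold generic toM const
  rw [Polynomial.map_map, Polynomial.map_map]

theorem trans_X (M : Type) [Field M] : Transcendental M (RatFunc.X : RatFunc M) := by
  rw [transcendental_iff_injective]
  intro p q h
  apply RatFunc.algebraMap_injective M
  rwa [RatFunc.aeval_X_left_eq_algebraMap, RatFunc.aeval_X_left_eq_algebraMap] at h

/-- the rank of the points over the field -/
noncomputable def r1 (b c : Fin m → (MvPolynomial σ ℤ)[X]) (j : Fin m) : ℕ := nn1 (toM b j) (toM c j)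

/-- the rank of the points over the function field -/
noncomputable def r2 (b c : Fin m → (MvPolynomial σ ℤ)[X]) (i j : Fin m) : ℕ :=
  nn2 (RatFunc.X : RatFunc (MM σ)) (toM b i) (toM c i) (toM b j) (toM c j)

theorem asy_products (hcd : ∀ i, (c i).natDegree = 2 * g i + 1)
    (hc : ∀ i, (c i).Monic) (hb : ∀ i, (b i).natDegree < 2 * g i + 1) (hb0 : ∀ i, b i ≠ 0)
    (hs : ∀ i, (generic (b i) (c i)).Separable) {P : MvPolynomial (Option σ) ℤ} (hP : P ≠ 0) :
    Asy (fun F _ _ => sT (w2 m) (gg b c) (badP P) F) (Fintype.card σ + 1)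
      ((m : ℝ) + ∑ i, ∑ j, if i < j then ((r2 b c i j : ℝ) - r1 b c j) else 0) := by
  have hcM : CharZero (RatFunc (MM σ)) := charZero_of_injective_algebraMap
    (algebraMap (MM σ) (RatFunc (MM σ))).injective
  have hω := trans_X (MM σ)
  have htop : IntermediateField.adjoin (MM σ) {(RatFunc.X : RatFunc (MM σ))} = ⊤ := RatFunc.adjoin_X
  let φ : (MvPolynomial σ ℤ)[X] →+* RatFunc (MM σ) :=
    phA (M := MM σ) (MvPolynomial σ ℤ) (RatFunc.X : RatFunc (MM σ))
  let _ : Algebra (MvPolynomial σ ℤ)[X] (RatFunc (MM σ)) := φ.toAlgebra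
  have _ : IsFractionRing (MvPolynomial σ ℤ)[X] (RatFunc (MM σ)) := phA_frac (MvPolynomial σ ℤ) hω htop
  have hft' : Algebra.FiniteType ℤ (MvPolynomial σ ℤ)[X] := inferInstance
  have hft'' := Pool.Agent.R410.LW.ft_int _ hft'
  have hφC : φ.comp C = (algebraMap (MM σ) (RatFunc (MM σ))).comp (algebraMap (MvPolynomial σ ℤ) (MM σ)) := by
    refine RingHom.ext fun z => ?_
    change phA (M := MM σ) (MvPolynomial σ ℤ) (RatFunc.X : RatFunc (MM σ)) (C z) = _
    rw [phA_apply, Polynomial.map_C, aeval_C]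
    rfl
  have hφX : φ X = RatFunc.X := by
    change phA (M := MM σ) (MvPolynomial σ ℤ) (RatFunc.X : RatFunc (MM σ)) X = _
    rw [phA_apply, Polynomial.map_X, aeval_X]
  have hinj : Function.Injective ((algebraMap (MM σ) (RatFunc (MM σ))).comp
      (algebraMap (MvPolynomial σ ℤ) (MM σ))) :=
    (algebraMap (MM σ) (RatFunc (MM σ))).injective.comp (IsFractionRing.injective _ _)
  refine asy_w2 (fg_MM σ) (trdeg_MM σ) hω htop hω htop (b := toM b) (c := toM c) ?_ ?_ ?_ ?_
    (g := gg b c) ?_ ?_ (badP_ne hP)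
  · intro i h
    apply hb0 i
    apply Polynomial.map_injective _ (IsFractionRing.injective (MvPolynomial σ ℤ) (MM σ))
    rw [Polynomial.map_zero]
    exact h
  · intro i
    rw [toM_deg, hcd i]
    exact ⟨g i, rfl⟩
  · intro i
    rw [toM_deg, toM_deg, hcd i]
    exact hb i
  · intro i
    rw [← generic_eq]
    exact hs i
  · intro i
    unfold gg
    have h1 : ((c i).map C : (MvPolynomial σ ℤ)[X][X]).Monic := (hc i).map C
    refine h1.add_of_left ?_
    refine lt_of_le_of_lt (degree_mul_le _ _) ?_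
    refine lt_of_le_of_lt (add_le_add degree_C_le degree_map_le) ?_
    rw [zero_add, degree_eq_natDegree h1.ne_zero, (hc i).natDegree_map, hcd i]
    refine lt_of_le_of_lt degree_le_natDegree ?_
    exact_mod_cast hb i
  · intro i
    rw [← generic_eq]
    unfold gg generic const
    change (Polynomial.map φ _) = _
    rw [Polynomial.map_add, Polynomial.map_mul, Polynomial.map_map, Polynomial.map_map, hφC, Polynomial.map_C, hφX]

theorem asy_fs (hcd : ∀ i, (c i).natDegree = 2 * g i + 1)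
    (hc : ∀ i, (c i).Monic) (hb : ∀ i, (b i).natDegree < 2 * g i + 1) (hb0 : ∀ i, b i ≠ 0)
    (hs : ∀ i, (generic (b i) (c i)).Separable) {P : MvPolynomial (Option σ) ℤ} (hP : P ≠ 0) (p₀ : ℕ) :
    Asy (fun F _ _ => if Nat.card F < p₀ then 0 else sT (w2 m) (gg b c) (badP P) F) (Fintype.card σ + 1)
      ((m : ℝ) + ∑ i, ∑ j, if i < j then ((r2 b c i j : ℝ) - r1 b c j) else 0) := by
  refine (asy_products hcd hc hb hb0 hs hP).congr (p₀.factorial) (Nat.factorial_ne_zero _) fun F _ _ hF => ?_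
  rw [if_neg]
  intro h
  apply hF
  have h1 : Nat.card F ∣ p₀.factorial := Nat.dvd_factorial Nat.card_pos h.le
  obtain ⟨k, hk⟩ := h1
  have : Fintype F := Fintype.ofFinite F
  rw [hk, Nat.cast_mul, Nat.card_eq_fintype_card, FiniteField.cast_card_eq_zero, zero_mul]

/-- **The mean series.** -/
theorem ms_log (hcd : ∀ i, (c i).natDegree = 2 * g i + 1)
    (hc : ∀ i, (c i).Monic) (hb : ∀ i, (b i).natDegree < 2 * g i + 1) (hb0 : ∀ i, b i ≠ 0)
    (hs : ∀ i, (generic (b i) (c i)).Separable) {P : MvPolynomial (Option σ) ℤ} (hP : P ≠ 0) (p₀ : ℕ) (T : ℝ) :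
    ∃ C : ℝ, 0 ≤ C ∧ ∀ ε τ : ℝ, 0 < ε → ε ≤ 1 → |τ| ≤ T →
      |(ms p₀ (ty b c) P (fun _ _ => 1 : ℕ → Fin 1 → ℂ) (((2 : ℕ) : ℂ) / 2 + 1 + ε + τ * Complex.I)).re -
        ((m : ℝ) + ∑ i, ∑ j, if i < j then ((r2 b c i j : ℝ) - r1 b c j) else 0) *
          Real.log (1 / ‖(ε : ℂ) + τ * Complex.I‖)| ≤ C := by
  classical
  obtain ⟨C, hC, h⟩ := asy_log (asy_fs hcd hc hb hb0 hs hP p₀) (c2_nonneg _) (f := fs b c P p₀) (by
    intro p hp
    unfold fs
    rw [dif_pos hp.out, Nat.card_zmod]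
    split_ifs with h1
    · rfl
    · exact (sT_eq b c P p).symm) (fun p hp => fs_bound hc hcd hb P p₀ p hp) T
  refine ⟨C, hC, fun ε τ hε hε1 hτ => ?_⟩
  have h1 := h ε τ hε hε1 hτ
  have e1 : (((2 : ℕ) : ℂ) / 2 + 1 + ε + τ * Complex.I) = ((2 : ℕ) / 2 + 1 + (ε + τ * Complex.I) : ℂ) := by ring
  rw [e1, ms_fs]
  have e2 : ∀ p : Nat.Primes, ((fs b c P p₀ p : ℂ) * ((p : ℕ) : ℂ) ^ (-(((Fintype.card σ + 1 : ℕ) : ℂ) + 1 +
      (ε + τ * Complex.I)))) = ((fs b c P p₀ p : ℂ) * ((p : ℕ) : ℂ) ^ (-(((Fintype.card σ + 1 : ℕ) : ℂ) + 1 +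
      ε + τ * Complex.I))) := by
    intro p
    rw [show -(((Fintype.card σ + 1 : ℕ) : ℂ) + 1 + (ε + τ * Complex.I)) =
      -(((Fintype.card σ + 1 : ℕ) : ℂ) + 1 + ε + τ * Complex.I) by ring]
  rw [tsum_congr e2]
  exact h1

/-- **The algebraic side.** -/
theorem ranks (hcd : ∀ i, (c i).natDegree = 2 * g i + 1)
    (hb : ∀ i, (b i).natDegree < 2 * g i + 1) (hb0 : ∀ i, b i ≠ 0)
    (hs : ∀ i, (generic (b i) (c i)).Separable) :
    (∀ j, ClassGroupHasRank (generic (b j) (c j)) (r1 b c j)) ∧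
    (∀ i j, ∀ (K₁ : Type) [Field K₁] [Algebra (BaseField σ) K₁] (x y : K₁),
      IsFunctionField (generic (b i) (c i)) x y →
        ClassGroupHasRank ((generic (b j) (c j)).map (algebraMap (BaseField σ) K₁)) (r2 b c i j)) ∧
    (∀ i, ∃ (K₁ : Type) (_ : Field K₁) (_ : Algebra (BaseField σ) K₁) (x y : K₁),
      IsFunctionField (generic (b i) (c i)) x y) := by
  have hω := trans_X (MM σ)
  have htop : IntermediateField.adjoin (MM σ) {(RatFunc.X : RatFunc (MM σ))} = ⊤ := RatFunc.adjoin_X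
  have hb0' : ∀ i, toM b i ≠ 0 := by
    intro i h
    apply hb0 i
    apply Polynomial.map_injective _ (IsFractionRing.injective (MvPolynomial σ ℤ) (MM σ))
    rw [Polynomial.map_zero]
    exact h
  have hodd : ∀ i, Odd (toM c i).natDegree := fun i => by
    rw [toM_deg, hcd i]
    exact ⟨g i, rfl⟩
  have hbc : ∀ i, (toM b i).natDegree < (toM c i).natDegree := fun i => by
    rw [toM_deg, toM_deg, hcd i]
    exact hb i
  have h0c : ∀ i, (0 : (MM σ)[X]).natDegree < (toM c i).natDegree := fun i => by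
    rw [natDegree_zero]
    exact (hodd i).pos
  have hΔ : ∀ j, (toM b j) ^ 2 - 4 * (0 : (MM σ)[X]) * toM c j ≠ 0 := fun j => by
    rw [mul_zero, zero_mul, sub_zero]
    exact pow_ne_zero 2 (hb0' j)
  have hsep : ∀ i, (fq 0 (toM b i) (toM c i) (RatFunc.X : BaseField σ)).Separable := fun i => by
    rw [← generic_eq]
    exact hs i
  refine ⟨?_, ?_, ?_⟩
  · intro j
    obtain ⟨h1, -⟩ := Pool.Agent.R410.NG.rank_cb' hω htop (hodd j) (h0c j) (hbc j)
      (hsep j).squarefree (hΔ j)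
    rw [if_neg (fun h => h.1 rfl), Nat.sub_zero] at h1
    unfold ClassGroupHasRank
    rw [generic_eq]
    exact h1
  · intro i j K₁ _ _ x y h
    have hcK : CharZero K₁ := charZero_of_injective_algebraMap (algebraMap (BaseField σ) K₁).injective
    obtain ⟨h1, h2, h3⟩ := h
    have h4 : Pool.Agent.R410.NG.IsCf (fq 0 (toM b i) (toM c i) (RatFunc.X : BaseField σ)) x y :=
      ⟨h1, by rw [← generic_eq]; exact h2, h3⟩
    obtain ⟨-, h5, -⟩ := Pool.Agent.R410.NG.pair_main (fg_MM σ) (trdeg_MM σ) hω htop hω htop (hb0' i)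
      (hb0' j) (hodd j) (hbc j) (hsep j) h4
    unfold ClassGroupHasRank
    rw [generic_eq]
    exact h5
  · intro i
    have hnd : (generic (b i) (c i)).natDegree = 2 * g i + 1 := by
      rw [generic_eq, deg_fq (h0c i) (hbc i), toM_deg, hcd i]
    obtain ⟨K₁, i1, i2, x, y, h⟩ := Pool.Agent.R410.NG.exists_cf (F := generic (b i) (c i))
      (by rw [hnd]; exact ⟨g i, rfl⟩)
    exact ⟨K₁, i1, i2, x, y, h.tr, h.eq, h.gen⟩

end

end Pool.Agent.L0h50.AB
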